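import Pool.Agent.H176RC.Main

set_option autoImplicit false

/-! MP_9087e4_co: an edge set that is independent in the generic rigidity matroid `R_k` is
independent in the generic cofactor matroid `C_k^{k-1}`, provided `(k - 4) h < k (k + 1)`, where
`h` is the number of vertices incident with at least `k + 4` edges of the set. For `k ≤ 4` the
condition always holds, so the question is answered for all graphs. -/

namespace Pool.Agent.Results.MP_9087e4_co.DimensionFour

theorem result : ∀ (k n : ℕ), 1 ≤ k → ∀ (E : Finset (Fin n × Fin n)), (∀ e ∈ E, e.1 < e.2) →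
    ((k : ℤ) - 4) * ((Finset.univ.filter (fun v : Fin n =>
        k + 4 ≤ (E.filter (fun e => e.1 = v ∨ e.2 = v)).card)).card : ℤ) < k * (k + 1) →
    ∀ (p : Fin n → Fin k → ℝ) (q : Fin n → Fin 2 → ℝ),
    AlgebraicIndependent ℚ (fun x : Fin n × Fin k => p x.1 x.2) →
    AlgebraicIndependent ℚ (fun x : Fin n × Fin 2 => q x.1 x.2) →
    LinearIndependent ℝ (fun (e : ↥E) (v : Fin n) (a : Fin k) =>
      if v = e.1.1 then p e.1.1 a - p e.1.2 a
      else if v = e.1.2 then p e.1.2 a - p e.1.1 a else (0 : ℝ)) →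
    LinearIndependent ℝ (fun (e : ↥E) (v : Fin n) (a : Fin (k + 1)) =>
      if v = e.1.1 then
        (q e.1.1 0 - q e.1.2 0) ^ (k - (a : ℕ)) * (q e.1.1 1 - q e.1.2 1) ^ (a : ℕ)
      else if v = e.1.2 then
        -((q e.1.1 0 - q e.1.2 0) ^ (k - (a : ℕ)) * (q e.1.1 1 - q e.1.2 1) ^ (a : ℕ))
      else (0 : ℝ)) :=
  Pool.Agent.H176RC.mFIN

end Pool.Agent.Results.MP_9087e4_co.DimensionFour
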